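import Mathlib

set_option autoImplicit false

/-! # An operator on locally bounded functions -/

open MeasureTheory Filter Topology Set
open scoped ENNReal

namespace Pool.Agent.Run7.h290.TM

/-- `e^{-isw}` -/
noncomputable def ph (s w : ℝ) : ℂ := Complex.exp (-(Complex.I * s * w))

lemma ph_norm (s w : ℝ) : ‖ph s w‖ = 1 := by
  unfold ph
  rw [Complex.norm_exp]
  simp

lemma ph_cont (s : ℝ) : Continuous (ph s) := by
  unfold ph
  fun_prop

/-- measurable and bounded on the left half-lines -/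
structure LBc (g : ℝ → ℂ) : Prop where
  meas : Measurable g
  bdd : ∀ V : ℝ, ∃ B : ℝ, ∀ v ≤ V, ‖g v‖ ≤ B

/-- the integral operator -/
noncomputable def Hs (s : ℝ) (g : ℝ → ℂ) (v : ℝ) : ℂ :=
  ((Real.exp (-(v / 2)) : ℝ) : ℂ) * ∫ w in (0:ℝ)..v, ((Real.exp (w / 2) : ℝ) : ℂ) * (ph s w * g w)

/-- the operator which corresponds to the twist by `n^{-is}` -/
noncomputable def As (s : ℝ) (g : ℝ → ℂ) (v : ℝ) : ℂ := ph s v * g v + Complex.I * s * Hs s g v

lemma LBc.ii {g : ℝ → ℂ} (hg : LBc g) (s a b : ℝ) :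
    IntervalIntegrable (fun w => ((Real.exp (w / 2) : ℝ) : ℂ) * (ph s w * g w)) volume a b := by
  obtain ⟨B, hB⟩ := hg.bdd (max a b)
  rw [intervalIntegrable_iff]
  refine Measure.integrableOn_of_bounded (M := Real.exp (max a b / 2) * B) ?_ ?_ ?_
  · rw [uIoc, Real.volume_Ioc]
    exact ENNReal.ofReal_ne_top
  · have h1 := (ph_cont s).measurable
    have h2 := hg.meas
    have h3 : Measurable fun w : ℝ => ((Real.exp (w / 2) : ℝ) : ℂ) := by fun_prop
    exact (h3.mul (h1.mul h2)).aestronglyMeasurable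
  · refine (ae_restrict_iff' measurableSet_uIoc).2 (Eventually.of_forall fun w hw => ?_)
    have hw2 : w ≤ max a b := hw.2
    rw [norm_mul, norm_mul, ph_norm, one_mul, Complex.norm_real, Real.norm_of_nonneg (Real.exp_pos _).le]
    have h1 : Real.exp (w / 2) ≤ Real.exp (max a b / 2) := Real.exp_le_exp.2 (by linarith)
    exact mul_le_mul h1 (hB w hw2) (norm_nonneg _) (Real.exp_pos _).le

lemma Hs_cont {g : ℝ → ℂ} (hg : LBc g) (s : ℝ) : Continuous (Hs s g) := by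
  unfold Hs
  refine Continuous.mul (by fun_prop) ?_
  exact intervalIntegral.continuous_primitive (fun a b => hg.ii s a b) 0

lemma As_meas {g : ℝ → ℂ} (hg : LBc g) (s : ℝ) : Measurable (As s g) := by
  unfold As
  exact ((ph_cont s).measurable.mul hg.meas).add ((Hs_cont hg s).measurable.const_mul _)

/-- the kernel -/
noncomputable def kk (v w : ℝ) : ℝ≥0∞ := ENNReal.ofReal (Real.exp (-((v - w) / 2)))

lemma kk_meas : Measurable (Function.uncurry kk) := by
  unfold kk Function.uncurry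
  fun_prop

/-- the integral of the kernel -/
lemma kk_int_right (w : ℝ) : ∫⁻ v in Ioi w, kk v w ≤ 2 := by
  unfold kk
  have h1 : IntegrableOn (fun v : ℝ => Real.exp (-((v - w) / 2))) (Ioi w) := by
    have h2 := (integrableOn_exp_mul_Ioi (a := -(1/2 : ℝ)) (by norm_num) w).const_mul (Real.exp (w / 2))
    have e : (fun v : ℝ => Real.exp (-((v - w) / 2))) = fun v => Real.exp (w / 2) * Real.exp (-(1 / 2 : ℝ) * v) := by
      funext v
      rw [← Real.exp_add]
      congr 1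
      ring
    rw [e]
    exact h2
  rw [← ofReal_integral_eq_lintegral_ofReal h1 (Eventually.of_forall fun v => (Real.exp_pos _).le)]
  have h3 : ∫ v in Ioi w, Real.exp (-((v - w) / 2)) = 2 := by
    have e1 : ∀ v, Real.exp (-((v - w) / 2)) = Real.exp (w / 2) * Real.exp (-(1/2 : ℝ) * v) := by
      intro v
      rw [← Real.exp_add]
      congr 1
      ring
    simp_rw [e1]
    rw [integral_const_mul, integral_exp_mul_Ioi (by norm_num) w]
    rw [show -(1/2:ℝ) * w = -(w/2) by ring]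
    rw [neg_div, div_neg, neg_neg]
    have h4 : Real.exp (w / 2) * Real.exp (-(w / 2)) = 1 := by rw [← Real.exp_add, add_neg_cancel, Real.exp_zero]
    calc Real.exp (w / 2) * (Real.exp (-(w / 2)) / (1 / 2)) = 2 * (Real.exp (w / 2) * Real.exp (-(w / 2))) := by ring
      _ = 2 := by rw [h4, mul_one]
  rw [h3]
  simp

lemma kk_int_left (v : ℝ) : ∫⁻ w in Ioc 0 v, kk v w ≤ 2 := by
  have h1 : ∫⁻ w in Ioc 0 v, kk v w ≤ ∫⁻ w in Iio v, kk v w := by
    rw [show (∫⁻ w in Iio v, kk v w) = ∫⁻ w in Iic v, kk v w from setLIntegral_congr Iio_ae_eq_Iic]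
    exact lintegral_mono_set fun w hw => hw.2
  refine h1.trans ?_
  have h2 : ∫⁻ w in Iio v, kk v w = ∫⁻ x in Ioi (-v), kk x (-v) := by
    have h3 := (Measure.measurePreserving_neg (volume : Measure ℝ)).setLIntegral_comp_preimage (s := Ioi (-v)) measurableSet_Ioi
      (f := fun x => kk x (-v)) (by unfold kk; fun_prop)
    rw [← h3]
    have e1 : (Neg.neg ⁻¹' Ioi (-v) : Set ℝ) = Iio v := by
      ext x
      simp
    rw [e1]
    refine setLIntegral_congr_fun measurableSet_Iio fun x _ => ?_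
    unfold kk
    congr 2
    ring
  rw [h2]
  exact kk_int_right (-v)

lemma young {φ : ℝ → ℝ≥0∞} (hφ : Measurable φ) (V : ℝ) :
    ∫⁻ v in Ioc 0 V, ∫⁻ w in Ioc 0 v, kk v w * φ w ≤ 2 * ∫⁻ w in Ioc 0 V, φ w := by
  have h1 : ∀ v ∈ Ioc 0 V, ∫⁻ w in Ioc 0 v, kk v w * φ w = ∫⁻ w in Ioc 0 V, (Ici w).indicator (fun v => kk v w * φ w) v := by
    intro v hv
    have h2 : ∀ w, (Ici w).indicator (fun v => kk v w * φ w) v = (Iic v).indicator (fun w => kk v w * φ w) w := by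
      intro w
      by_cases h : w ≤ v
      · rw [indicator_of_mem (show v ∈ Ici w from h), indicator_of_mem (show w ∈ Iic v from h)]
      · rw [indicator_of_notMem (show v ∉ Ici w from h), indicator_of_notMem (show w ∉ Iic v from h)]
    simp_rw [h2]
    rw [setLIntegral_indicator measurableSet_Iic]
    congr 2
    ext w
    simp only [mem_Ioc, mem_inter_iff, mem_Iic]
    constructor
    · intro h
      exact ⟨h.2, h.1, h.2.trans hv.2⟩
    · intro h
      exact ⟨h.2.1, h.1⟩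
  rw [setLIntegral_congr_fun measurableSet_Ioc h1]
  rw [lintegral_lintegral_swap]
  · rw [← lintegral_const_mul _ hφ]
    refine setLIntegral_mono' measurableSet_Ioc fun w _ => ?_
    have h3 : ∫⁻ v in Ioc 0 V, (Ici w).indicator (fun v => kk v w * φ w) v ≤ ∫⁻ v, (Ici w).indicator (fun v => kk v w * φ w) v :=
      setLIntegral_le_lintegral _ _
    refine h3.trans ?_
    rw [lintegral_indicator measurableSet_Ici]
    rw [lintegral_mul_const _ (by unfold kk; fun_prop)]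
    refine mul_le_mul_left ?_ _
    rw [← setLIntegral_congr (Ioi_ae_eq_Ici : Ioi w =ᵐ[volume] Ici w)]
    exact kk_int_right w
  · have h4 : Measurable (Function.uncurry fun v w => (Ici w).indicator (fun v => kk v w * φ w) v) := by
      have h5 : (Function.uncurry fun v w => (Ici w).indicator (fun v => kk v w * φ w) v) =
          {p : ℝ × ℝ | p.2 ≤ p.1}.indicator fun p => kk p.1 p.2 * φ p.2 := by
        funext p
        unfold Function.uncurry
        simp only [Set.indicator, mem_Ici, mem_setOf_eq]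
      rw [h5]
      refine Measurable.indicator ?_ (measurableSet_le measurable_snd measurable_fst)
      exact kk_meas.mul (hφ.comp measurable_snd)
    exact h4.aemeasurable

lemma cs {φ : ℝ → ℝ≥0∞} (hφ : Measurable φ) (v : ℝ) :
    (∫⁻ w in Ioc 0 v, kk v w * φ w) ^ 2 ≤ 2 * ∫⁻ w in Ioc 0 v, kk v w * φ w ^ 2 := by
  obtain ⟨r, hr⟩ : ∃ r : ℝ → ℝ≥0∞, r = fun w => ENNReal.ofReal (Real.exp (-((v - w) / 4))) := ⟨_, rfl⟩
  have hrm : Measurable r := by rw [hr]; fun_prop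
  have hrr : ∀ w, r w * r w = kk v w := by
    intro w
    rw [hr]
    unfold kk
    simp only
    rw [← ENNReal.ofReal_mul (Real.exp_pos _).le, ← Real.exp_add]
    congr 2
    ring
  have h := ENNReal.lintegral_mul_le_Lp_mul_Lq (volume.restrict (Ioc 0 v)) (p := 2) (q := 2) Real.HolderConjugate.two_two
    (f := r) (g := fun w => r w * φ w) hrm.aemeasurable (hrm.mul hφ).aemeasurable
  have e1 : ∫⁻ w in Ioc 0 v, kk v w * φ w = ∫⁻ w in Ioc 0 v, (r * fun w => r w * φ w) w := by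
    refine lintegral_congr fun w => ?_
    rw [Pi.mul_apply, ← mul_assoc, hrr]
  rw [e1]
  have h2 : (∫⁻ w in Ioc 0 v, (r * fun w => r w * φ w) w) ^ 2 ≤
      ((∫⁻ w in Ioc 0 v, r w ^ (2:ℝ)) ^ (1 / (2:ℝ)) * (∫⁻ w in Ioc 0 v, (r w * φ w) ^ (2:ℝ)) ^ (1 / (2:ℝ))) ^ 2 := by
    gcongr
  refine h2.trans ?_
  rw [mul_pow]
  have h3 : ∀ X : ℝ≥0∞, (X ^ (1 / (2:ℝ))) ^ 2 = X := by
    intro X
    rw [← ENNReal.rpow_natCast, ← ENNReal.rpow_mul]
    norm_num
  rw [h3, h3]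
  refine mul_le_mul' ?_ (le_of_eq ?_)
  · refine le_trans (le_of_eq ?_) (kk_int_left v)
    refine lintegral_congr fun w => ?_
    rw [ENNReal.rpow_two, sq, hrr]
  · refine lintegral_congr fun w => ?_
    rw [ENNReal.rpow_two, sq, sq, ← hrr]
    ring

lemma Hs_sq {g : ℝ → ℂ} (hg : LBc g) (s : ℝ) {v : ℝ} (hv : 0 ≤ v) :
    ‖Hs s g v‖ₑ ^ 2 ≤ 2 * ∫⁻ w in Ioc 0 v, kk v w * ‖g w‖ₑ ^ 2 := by
  have hm : Measurable fun w => ‖g w‖ₑ := hg.meas.enorm
  refine le_trans ?_ (cs hm v)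
  gcongr
  unfold Hs
  rw [enorm_mul, intervalIntegral.integral_of_le hv]
  have h1 : ‖∫ w in Ioc 0 v, ((Real.exp (w / 2) : ℝ) : ℂ) * (ph s w * g w)‖ₑ ≤ ∫⁻ w in Ioc 0 v, ENNReal.ofReal (Real.exp (w / 2)) * ‖g w‖ₑ := by
    refine (enorm_integral_le_lintegral_enorm _).trans (le_of_eq ?_)
    refine lintegral_congr fun w => ?_
    rw [enorm_mul, enorm_mul]
    congr 1
    · rw [← ofReal_norm, Complex.norm_real, Real.norm_of_nonneg (Real.exp_pos _).le]
    · rw [← ofReal_norm (ph s w), ph_norm, ENNReal.ofReal_one, one_mul]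
  have e1 : ‖((Real.exp (-(v / 2)) : ℝ) : ℂ)‖ₑ = ENNReal.ofReal (Real.exp (-(v / 2))) := by
    rw [← ofReal_norm, Complex.norm_real, Real.norm_of_nonneg (Real.exp_pos _).le]
  rw [e1]
  calc ENNReal.ofReal (Real.exp (-(v / 2))) * ‖∫ w in Ioc 0 v, ((Real.exp (w / 2) : ℝ) : ℂ) * (ph s w * g w)‖ₑ ≤
      ENNReal.ofReal (Real.exp (-(v / 2))) * ∫⁻ w in Ioc 0 v, ENNReal.ofReal (Real.exp (w / 2)) * ‖g w‖ₑ := by gcongr
    _ = ∫⁻ w in Ioc 0 v, ENNReal.ofReal (Real.exp (-(v / 2))) * (ENNReal.ofReal (Real.exp (w / 2)) * ‖g w‖ₑ) := by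
      rw [lintegral_const_mul]
      exact (by fun_prop : Measurable fun w : ℝ => ENNReal.ofReal (Real.exp (w / 2))).mul hm
    _ = _ := by
      refine lintegral_congr fun w => ?_
      rw [← mul_assoc, ← ENNReal.ofReal_mul (Real.exp_pos _).le, ← Real.exp_add]
      unfold kk
      congr 3
      ring

/-- the mean square bound -/
theorem As_sq {g : ℝ → ℂ} (hg : LBc g) (s V : ℝ) :
    ∫⁻ v in Ioc 0 V, ‖As s g v‖ₑ ^ 2 ≤ ENNReal.ofReal (2 + 8 * s ^ 2) * ∫⁻ v in Ioc 0 V, ‖g v‖ₑ ^ 2 := by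
  have hm : Measurable fun w => ‖g w‖ₑ ^ 2 := hg.meas.enorm.pow_const 2
  have he : ∀ z : ℂ, ‖z‖ₑ ^ 2 = ENNReal.ofReal (‖z‖ ^ 2) := by
    intro z
    rw [← ofReal_norm, ENNReal.ofReal_pow (norm_nonneg _)]
  have h1 : ∀ v ∈ Ioc 0 V, ‖As s g v‖ₑ ^ 2 ≤ 2 * ‖g v‖ₑ ^ 2 + ENNReal.ofReal (4 * s ^ 2) * ∫⁻ w in Ioc 0 v, kk v w * ‖g w‖ₑ ^ 2 := by
    intro v hv
    have h2 : ‖As s g v‖ ^ 2 ≤ 2 * ‖g v‖ ^ 2 + 2 * s ^ 2 * ‖Hs s g v‖ ^ 2 := by
      have h3 : ‖As s g v‖ ≤ ‖g v‖ + |s| * ‖Hs s g v‖ := by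
        unfold As
        refine (norm_add_le _ _).trans (le_of_eq ?_)
        rw [norm_mul, norm_mul, norm_mul, ph_norm, Complex.norm_I, Complex.norm_real, Real.norm_eq_abs, one_mul, one_mul]
      have h4 : ‖As s g v‖ ^ 2 ≤ (‖g v‖ + |s| * ‖Hs s g v‖) ^ 2 := by gcongr
      have h5 : (‖g v‖ + |s| * ‖Hs s g v‖) ^ 2 ≤ 2 * ‖g v‖ ^ 2 + 2 * (|s| * ‖Hs s g v‖) ^ 2 := by
        nlinarith [sq_nonneg (‖g v‖ - |s| * ‖Hs s g v‖)]
      rw [mul_pow, sq_abs] at h5
      linarith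
    have h6 := Hs_sq hg s hv.1.le
    rw [he] at h6
    rw [he, he]
    refine (ENNReal.ofReal_le_ofReal h2).trans ?_
    rw [ENNReal.ofReal_add (by positivity) (by positivity), ENNReal.ofReal_mul (by norm_num : (0:ℝ) ≤ 2),
      ENNReal.ofReal_mul (by positivity : (0:ℝ) ≤ 2 * s ^ 2)]
    refine add_le_add (le_of_eq (by norm_num)) ?_
    calc ENNReal.ofReal (2 * s ^ 2) * ENNReal.ofReal (‖Hs s g v‖ ^ 2) ≤
        ENNReal.ofReal (2 * s ^ 2) * (2 * ∫⁻ w in Ioc 0 v, kk v w * ‖g w‖ₑ ^ 2) := by gcongr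
      _ = _ := by
        rw [← mul_assoc]
        congr 1
        rw [show (2:ℝ≥0∞) = ENNReal.ofReal 2 by norm_num, ← ENNReal.ofReal_mul (by positivity)]
        congr 1
        ring
  refine (setLIntegral_mono' measurableSet_Ioc h1).trans ?_
  rw [lintegral_add_left (hm.const_mul 2), lintegral_const_mul _ hm]
  have h2 : ∫⁻ v in Ioc 0 V, ENNReal.ofReal (4 * s ^ 2) * ∫⁻ w in Ioc 0 v, kk v w * ‖g w‖ₑ ^ 2 ≤
      ENNReal.ofReal (4 * s ^ 2) * (2 * ∫⁻ w in Ioc 0 V, ‖g w‖ₑ ^ 2) := by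
    rw [lintegral_const_mul' _ _ ENNReal.ofReal_ne_top]
    gcongr
    exact young hm V
  refine (add_le_add le_rfl h2).trans (le_of_eq ?_)
  rw [← mul_assoc, ← add_mul]
  congr 1
  rw [show (2:ℝ≥0∞) = ENNReal.ofReal 2 by norm_num, ← ENNReal.ofReal_mul (by positivity), ← ENNReal.ofReal_add (by norm_num) (by positivity)]
  congr 1
  ring

end Pool.Agent.Run7.h290.TM
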