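import Pool.Agent.Run7.h290.TM.A

set_option autoImplicit false

/-! # Abel summation: the twist by `n^{-is}` is the operator `As s` -/

open MeasureTheory Filter Topology Set
open scoped ENNReal

namespace Pool.Agent.Run7.h290.TM

/-- `e^{-v/2} ∑_{n ≤ e^v} c_n` -/
noncomputable def Ac (c : ℕ → ℂ) (v : ℝ) : ℂ := ((Real.exp (-(v / 2)) : ℝ) : ℂ) * ∑ n ∈ Finset.Icc 1 ⌊Real.exp v⌋₊, c n

lemma Ac_neg (c : ℕ → ℂ) {v : ℝ} (hv : v < 0) : Ac c v = 0 := by
  unfold Ac
  have h : ⌊Real.exp v⌋₊ = 0 := Nat.floor_eq_zero.2 (by rw [Real.exp_lt_one_iff]; exact hv)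
  rw [h]
  simp

lemma Ac_LB (c : ℕ → ℂ) : LBc (Ac c) := by
  refine ⟨?_, fun V => ⟨∑ n ∈ Finset.Icc 1 ⌊Real.exp V⌋₊, ‖c n‖, fun v hv => ?_⟩⟩
  · unfold Ac
    refine Measurable.mul (by fun_prop) ?_
    have h1 : Measurable fun m : ℕ => ∑ n ∈ Finset.Icc 1 m, c n := measurable_from_nat
    have h2 : Measurable fun v : ℝ => ⌊Real.exp v⌋₊ := Nat.measurable_floor.comp Real.measurable_exp
    exact h1.comp h2
  · rcases lt_or_ge v 0 with h | h
    · rw [Ac_neg c h, norm_zero]
      positivity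
    · unfold Ac
      rw [norm_mul, Complex.norm_real, Real.norm_of_nonneg (Real.exp_pos _).le]
      have h1 : Real.exp (-(v / 2)) ≤ 1 := by rw [Real.exp_le_one_iff]; linarith
      have h2 : ‖∑ n ∈ Finset.Icc 1 ⌊Real.exp v⌋₊, c n‖ ≤ ∑ n ∈ Finset.Icc 1 ⌊Real.exp V⌋₊, ‖c n‖ := by
        refine (norm_sum_le _ _).trans ?_
        refine Finset.sum_le_sum_of_subset_of_nonneg ?_ fun _ _ _ => norm_nonneg _
        exact Finset.Icc_subset_Icc le_rfl (Nat.floor_le_floor (Real.exp_le_exp.2 hv))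
      calc Real.exp (-(v / 2)) * ‖∑ n ∈ Finset.Icc 1 ⌊Real.exp v⌋₊, c n‖ ≤ 1 * ∑ n ∈ Finset.Icc 1 ⌊Real.exp V⌋₊, ‖c n‖ :=
            mul_le_mul h1 h2 (norm_nonneg _) zero_le_one
        _ = _ := one_mul _

lemma ph_deriv (s w : ℝ) : HasDerivAt (ph s) (-(Complex.I * s) * ph s w) w := by
  unfold ph
  have h1 : HasDerivAt (fun w : ℝ => -(Complex.I * s * (w : ℂ))) (-(Complex.I * s)) w := by
    have h0 : HasDerivAt (fun w : ℝ => (w : ℂ)) 1 w := Complex.ofRealCLM.hasDerivAt
    simpa [neg_mul] using h0.const_mul (-(Complex.I * (s : ℂ)))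
  have h2 := h1.cexp
  refine h2.congr_deriv ?_
  ring

lemma piece (s : ℝ) {L v : ℝ} (hL : 0 ≤ L) (hLv : L ≤ v) :
    Complex.I * s * ∫ w in Ioc 0 v, (Ici L).indicator (ph s) w = ph s L - ph s v := by
  rw [setIntegral_indicator measurableSet_Ici]
  have h1 : (Ioc 0 v ∩ Ici L : Set ℝ) =ᵐ[volume] Ioc L v := by
    rcases hL.eq_or_lt with h | h
    · rw [← h]
      have : (Ioc 0 v ∩ Ici 0 : Set ℝ) = Ioc 0 v := by
        ext x
        simp only [mem_inter_iff, mem_Ioc, mem_Ici]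
        constructor
        · intro hx; exact hx.1
        · intro hx; exact ⟨hx, hx.1.le⟩
      exact Filter.EventuallyEq.of_eq this
    · have : (Ioc 0 v ∩ Ici L : Set ℝ) = Icc L v := by
        ext x
        simp only [mem_inter_iff, mem_Ioc, mem_Ici, mem_Icc]
        constructor
        · intro hx; exact ⟨hx.2, hx.1.2⟩
        · intro hx; exact ⟨⟨by linarith [hx.1], hx.2⟩, hx.1⟩
      rw [this]
      exact Ioc_ae_eq_Icc.symm
  rw [setIntegral_congr_set h1, ← intervalIntegral.integral_of_le hLv]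
  have h2 : ∫ w in L..v, -(Complex.I * s) * ph s w = ph s v - ph s L :=
    intervalIntegral.integral_eq_sub_of_hasDerivAt (fun w _ => ph_deriv s w)
      ((continuous_const.mul (ph_cont s)).intervalIntegrable _ _)
  rw [intervalIntegral.integral_const_mul] at h2
  linear_combination -h2

/-- Abel summation -/
theorem abel (c : ℕ → ℂ) (s : ℝ) {v : ℝ} (hv : 0 ≤ v) : Ac (fun n => c n * ph s (Real.log n)) v = As s (Ac c) v := by
  obtain ⟨m, hm⟩ : ∃ m, m = ⌊Real.exp v⌋₊ := ⟨_, rfl⟩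
  have hlog : ∀ n ∈ Finset.Icc 1 m, 0 ≤ Real.log n ∧ Real.log n ≤ v := by
    intro n hn
    rw [Finset.mem_Icc] at hn
    have h1 : (1:ℝ) ≤ n := by exact_mod_cast hn.1
    have h2 : (n:ℝ) ≤ Real.exp v := by
      have h3 : (n:ℝ) ≤ m := by exact_mod_cast hn.2
      rw [hm] at h3
      exact h3.trans (Nat.floor_le (Real.exp_pos v).le)
    exact ⟨Real.log_nonneg h1, (Real.log_le_iff_le_exp (by linarith)).2 h2⟩
  -- the inner integral
  have hint : ∫ w in (0:ℝ)..v, ((Real.exp (w / 2) : ℝ) : ℂ) * (ph s w * Ac c w) =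
      ∑ n ∈ Finset.Icc 1 m, c n * ∫ w in Ioc 0 v, (Ici (Real.log n)).indicator (ph s) w := by
    rw [intervalIntegral.integral_of_le hv]
    have h1 : ∀ w ∈ Ioc 0 v, ((Real.exp (w / 2) : ℝ) : ℂ) * (ph s w * Ac c w) =
        ∑ n ∈ Finset.Icc 1 m, c n * (Ici (Real.log n)).indicator (ph s) w := by
      intro w hw
      have h2 : ((Real.exp (w / 2) : ℝ) : ℂ) * (ph s w * Ac c w) = ph s w * ∑ n ∈ Finset.Icc 1 ⌊Real.exp w⌋₊, c n := by
        unfold Ac
        have h3 : ((Real.exp (w / 2) : ℝ) : ℂ) * ((Real.exp (-(w / 2)) : ℝ) : ℂ) = 1 := by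
          rw [← Complex.ofReal_mul, ← Real.exp_add, add_neg_cancel, Real.exp_zero, Complex.ofReal_one]
        linear_combination (ph s w * ∑ n ∈ Finset.Icc 1 ⌊Real.exp w⌋₊, c n) * h3
      rw [h2, Finset.mul_sum]
      have h4 : Finset.Icc 1 ⌊Real.exp w⌋₊ ⊆ Finset.Icc 1 m := by
        rw [hm]
        exact Finset.Icc_subset_Icc le_rfl (Nat.floor_le_floor (Real.exp_le_exp.2 hw.2))
      rw [← Finset.sum_subset h4]
      · refine Finset.sum_congr rfl fun n hn => ?_
        rw [Finset.mem_Icc] at hn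
        have h5 : Real.log n ≤ w := by
          have h6 : (1:ℝ) ≤ n := by exact_mod_cast hn.1
          rw [Real.log_le_iff_le_exp (by linarith)]
          exact (Nat.le_floor_iff (Real.exp_pos w).le).1 hn.2
        rw [indicator_of_mem (show w ∈ Ici (Real.log n) from h5)]
        ring
      · intro n hn hn2
        rw [Finset.mem_Icc] at hn
        have h5 : ¬ Real.log n ≤ w := by
          intro h6
          apply hn2
          rw [Finset.mem_Icc]
          have h7 : (1:ℝ) ≤ n := by exact_mod_cast hn.1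
          rw [Real.log_le_iff_le_exp (by linarith)] at h6
          exact ⟨hn.1, (Nat.le_floor_iff (Real.exp_pos w).le).2 h6⟩
        rw [indicator_of_notMem (show w ∉ Ici (Real.log n) from h5), mul_zero]
    rw [setIntegral_congr_fun measurableSet_Ioc h1, integral_finsetSum]
    · refine Finset.sum_congr rfl fun n _ => ?_
      rw [integral_const_mul]
    · intro n _
      refine Integrable.const_mul ?_ _
      refine Integrable.indicator ?_ measurableSet_Ici
      exact ((ph_cont s).intervalIntegrable 0 v).1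
  unfold As Hs
  rw [hint]
  unfold Ac
  rw [← hm]
  have h8 : ∑ n ∈ Finset.Icc 1 m, c n * ph s (Real.log n) = ph s v * ∑ n ∈ Finset.Icc 1 m, c n +
      Complex.I * s * ∑ n ∈ Finset.Icc 1 m, c n * ∫ w in Ioc 0 v, (Ici (Real.log n)).indicator (ph s) w := by
    rw [Finset.mul_sum, Finset.mul_sum, ← Finset.sum_add_distrib]
    refine Finset.sum_congr rfl fun n hn => ?_
    have h9 := piece s (hlog n hn).1 (hlog n hn).2
    linear_combination -(c n) * h9
  rw [h8]
  ring

/-- the inverse twist -/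
lemma twist_back (c : ℕ → ℂ) (s : ℝ) : (fun n : ℕ => (c n * ph s (Real.log n)) * ph (-s) (Real.log n)) = c := by
  funext n
  have : ph s (Real.log n) * ph (-s) (Real.log n) = 1 := by
    unfold ph
    rw [← Complex.exp_add, ← Complex.exp_zero]
    congr 1
    push_cast
    ring
  rw [mul_assoc, this, mul_one]

lemma As_add {g h : ℝ → ℂ} (hg : LBc g) (hh : LBc h) (s v : ℝ) : As s (fun v => g v + h v) v = As s g v + As s h v := by
  unfold As Hs
  have e1 : ∫ w in (0:ℝ)..v, ((Real.exp (w / 2) : ℝ) : ℂ) * (ph s w * (g w + h w)) =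
      (∫ w in (0:ℝ)..v, ((Real.exp (w / 2) : ℝ) : ℂ) * (ph s w * g w)) + ∫ w in (0:ℝ)..v, ((Real.exp (w / 2) : ℝ) : ℂ) * (ph s w * h w) := by
    rw [← intervalIntegral.integral_add (hg.ii s 0 v) (hh.ii s 0 v)]
    refine intervalIntegral.integral_congr fun w _ => ?_
    ring
  rw [e1]
  ring

/-- the action on an exponential -/
lemma As_exp {l : ℂ} (s : ℝ) (hl : l + 1 / 2 - Complex.I * s ≠ 0) (v : ℝ) :
    As s (fun v : ℝ => Complex.exp (l * v)) v = ((l + 1 / 2) / (l + 1 / 2 - Complex.I * s)) * Complex.exp ((l - Complex.I * s) * v) -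
      (Complex.I * s / (l + 1 / 2 - Complex.I * s)) * ((Real.exp (-(v / 2)) : ℝ) : ℂ) := by
  unfold As Hs
  have e1 : ∫ w in (0:ℝ)..v, ((Real.exp (w / 2) : ℝ) : ℂ) * (ph s w * Complex.exp (l * w)) =
      ∫ w in (0:ℝ)..v, Complex.exp ((l + 1 / 2 - Complex.I * s) * w) := by
    refine intervalIntegral.integral_congr fun w _ => ?_
    unfold ph
    rw [Complex.ofReal_exp, ← Complex.exp_add, ← Complex.exp_add]
    congr 1
    push_cast
    ring
  rw [e1, integral_exp_mul_complex hl]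
  have e2 : ph s v * Complex.exp (l * v) = Complex.exp ((l - Complex.I * s) * v) := by
    unfold ph
    rw [← Complex.exp_add]
    congr 1
    ring
  have e3 : ((Real.exp (-(v / 2)) : ℝ) : ℂ) * Complex.exp ((l + 1 / 2 - Complex.I * s) * v) = Complex.exp ((l - Complex.I * s) * v) := by
    rw [Complex.ofReal_exp, ← Complex.exp_add]
    congr 1
    push_cast
    ring
  have e4 : Complex.exp ((l + 1 / 2 - Complex.I * s) * ((0:ℝ) : ℂ)) = 1 := by simp
  rw [e4, e2]
  obtain ⟨D, hD⟩ : ∃ D, D = l + 1 / 2 - Complex.I * s := ⟨_, rfl⟩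
  rw [← hD] at hl e3 ⊢
  have e5 : ((Real.exp (-(v / 2)) : ℝ) : ℂ) * ((Complex.exp (D * v) - 1) / D) =
      (Complex.exp ((l - Complex.I * s) * v) - ((Real.exp (-(v / 2)) : ℝ) : ℂ)) / D := by
    rw [← e3]
    ring
  rw [e5]
  have e6 : l + 1 / 2 = D + Complex.I * s := by rw [hD]; ring
  rw [e6]
  field_simp
  ring

end Pool.Agent.Run7.h290.TM
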