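import Pool.Agent.Run7.h290.TM.B
import Pool.Agent.TH223.AP.A5

set_option autoImplicit false

/-! # The mean square of the twisted sums -/

open MeasureTheory Filter Topology Set
open scoped ENNReal

namespace Pool.Agent.Run7.h290.TM

open Pool.Agent.TH223.AP Pool.Agent.H295R2 Pool.Agent.W120.WM

/-- square integrable on the intervals `(0, V]` -/
def L2 (g : ℝ → ℂ) : Prop := Measurable g ∧ ∀ V : ℝ, ∫⁻ v in Ioc 0 V, ‖g v‖ₑ ^ 2 < ⊤

lemma L2.int {g : ℝ → ℂ} (hg : L2 g) (V : ℝ) : Integrable (fun v => ‖g v‖ ^ 2) (volume.restrict (Ioc 0 V)) := by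
  refine ⟨(hg.1.norm.pow_const 2).aestronglyMeasurable, ?_⟩
  unfold HasFiniteIntegral
  refine lt_of_le_of_lt (le_of_eq ?_) (hg.2 V)
  refine lintegral_congr fun v => ?_
  rw [enorm_pow, enorm_norm]

lemma L2.eq {g : ℝ → ℂ} (hg : L2 g) (V : ℝ) : ∫⁻ v in Ioc 0 V, ‖g v‖ₑ ^ 2 = ENNReal.ofReal (∫ v in Ioc 0 V, ‖g v‖ ^ 2) := by
  rw [ofReal_integral_eq_lintegral_ofReal (hg.int V) (Eventually.of_forall fun v => by positivity)]
  refine lintegral_congr fun v => ?_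
  rw [ENNReal.ofReal_pow (norm_nonneg _), ofReal_norm]

lemma LBc.l2 {g : ℝ → ℂ} (hg : LBc g) : L2 g := by
  refine ⟨hg.meas, fun V => ?_⟩
  obtain ⟨B, hB⟩ := hg.bdd V
  have h1 : ∫⁻ v in Ioc 0 V, ‖g v‖ₑ ^ 2 ≤ ∫⁻ v in Ioc 0 V, ENNReal.ofReal B ^ 2 := by
    refine setLIntegral_mono' measurableSet_Ioc fun v hv => ?_
    gcongr
    rw [← ofReal_norm]
    exact ENNReal.ofReal_le_ofReal (hB v hv.2)
  refine lt_of_le_of_lt h1 ?_
  rw [lintegral_const]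
  refine ENNReal.mul_lt_top (ENNReal.pow_lt_top ENNReal.ofReal_lt_top) ?_
  simp

lemma As_l2 {g : ℝ → ℂ} (hg : LBc g) (s : ℝ) : L2 (As s g) :=
  ⟨As_meas hg s, fun V => lt_of_le_of_lt (As_sq hg s V) (ENNReal.mul_lt_top ENNReal.ofReal_lt_top (hg.l2.2 V))⟩

lemma As_real {g : ℝ → ℂ} (hg : LBc g) (s V : ℝ) : ∫ v in Ioc 0 V, ‖As s g v‖ ^ 2 ≤ (2 + 8 * s ^ 2) * ∫ v in Ioc 0 V, ‖g v‖ ^ 2 := by
  have h := As_sq hg s V
  rw [(As_l2 hg s).eq, hg.l2.eq, ← ENNReal.ofReal_mul (by positivity)] at h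
  refine (ENNReal.ofReal_le_ofReal_iff ?_).1 h
  exact mul_nonneg (by positivity) (integral_nonneg fun _ => by positivity)

/-- comparison of mean squares -/
lemma compare {g q : ℝ → ℂ} (hg : L2 g) (hq : L2 q) (hd : L2 fun v => g v - q v) {η : ℝ} (hη : 0 < η) (V : ℝ) :
    |(∫ v in Ioc 0 V, ‖g v‖ ^ 2) - ∫ v in Ioc 0 V, ‖q v‖ ^ 2| ≤
      η * (∫ v in Ioc 0 V, ‖q v‖ ^ 2) + (1 + η⁻¹) * ∫ v in Ioc 0 V, ‖g v - q v‖ ^ 2 := by
  rw [← integral_sub (hg.int V) (hq.int V), ← integral_const_mul, ← integral_const_mul,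
    ← integral_add ((hq.int V).const_mul _) ((hd.int V).const_mul _)]
  refine (abs_integral_le_integral_abs).trans ?_
  refine integral_mono (((hg.int V).sub (hq.int V)).abs) (((hq.int V).const_mul _).add ((hd.int V).const_mul _)) fun v => ?_
  simp only
  obtain ⟨x, hx⟩ : ∃ x, x = ‖g v‖ := ⟨_, rfl⟩
  obtain ⟨y, hy⟩ : ∃ y, y = ‖q v‖ := ⟨_, rfl⟩
  obtain ⟨z, hz⟩ : ∃ z, z = ‖g v - q v‖ := ⟨_, rfl⟩
  have hz0 : 0 ≤ z := by rw [hz]; exact norm_nonneg _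
  have hy0 : 0 ≤ y := by rw [hy]; exact norm_nonneg _
  have hx0 : 0 ≤ x := by rw [hx]; exact norm_nonneg _
  have h1 : x ≤ y + z := by
    rw [hx, hy, hz]
    have := norm_add_le (q v) (g v - q v)
    rwa [add_sub_cancel] at this
  have h2 : y ≤ x + z := by
    rw [hx, hy, hz]
    have := norm_sub_le (g v) (g v - q v)
    rwa [sub_sub_cancel] at this
  have h3 : 2 * (y * z) ≤ η * y ^ 2 + η⁻¹ * z ^ 2 := by
    have h6 : η * y ^ 2 + η⁻¹ * z ^ 2 - 2 * (y * z) = η⁻¹ * (η * y - z) ^ 2 := by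
      field_simp
      ring
    have h7 : 0 ≤ η⁻¹ * (η * y - z) ^ 2 := by positivity
    linarith
  rw [← hx, ← hy, ← hz, abs_le]
  constructor
  · nlinarith
  · nlinarith

/-- Parseval for finite sums of exponentials -/
lemma parseval (Z : Finset ℂ) (hZ : ∀ ρ ∈ Z, ρ.re = 1 / 2) (c : ℂ → ℂ) (t : ℝ) :
    Tendsto (fun V : ℝ => (∫ v in Ioc 0 V, ‖∑ ρ ∈ Z, c ρ * Complex.exp ((ρ - 1 / 2 - Complex.I * t) * v)‖ ^ 2) / V) atTop
      (𝓝 (∑ ρ ∈ Z, ‖c ρ‖ ^ 2)) := by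
  classical
  have him : ∀ ρ ∈ Z, ∀ ρ' ∈ Z, ρ.im - ρ'.im = 0 → ρ' = ρ := by
    intro ρ hρ ρ' hρ' h
    refine (Complex.ext ?_ ?_)
    · rw [hZ ρ hρ, hZ ρ' hρ']
    · linarith
  have h1 : Tendsto (fun V : ℝ => ∑ ρ ∈ Z, ∑ ρ' ∈ Z, c ρ * (starRingEnd ℂ) (c ρ') * ((∫ v in (0:ℝ)..V, ex (ρ.im - ρ'.im) v) / (V : ℂ))) atTop
      (𝓝 (∑ ρ ∈ Z, ∑ ρ' ∈ Z, c ρ * (starRingEnd ℂ) (c ρ') * (if ρ.im - ρ'.im = 0 then 1 else 0))) :=
    tendsto_finsetSum _ fun ρ _ => tendsto_finsetSum _ fun ρ' _ => (mean_ex _).const_mul _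
  have e1 : ∑ ρ ∈ Z, ∑ ρ' ∈ Z, c ρ * (starRingEnd ℂ) (c ρ') * (if ρ.im - ρ'.im = 0 then (1:ℂ) else 0) = ((∑ ρ ∈ Z, ‖c ρ‖ ^ 2 : ℝ) : ℂ) := by
    push_cast
    refine Finset.sum_congr rfl fun ρ hρ => ?_
    rw [Finset.sum_eq_single ρ]
    · rw [sub_self, if_pos rfl, mul_one, Complex.mul_conj']
    · intro ρ' hρ' hne
      rw [if_neg, mul_zero]
      intro h
      exact hne (him ρ hρ ρ' hρ' h)
    · exact fun h => absurd hρ h
  rw [e1] at h1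
  have h2 := (Complex.continuous_re.tendsto _).comp h1
  rw [Complex.ofReal_re] at h2
  refine h2.congr' ?_
  filter_upwards [eventually_gt_atTop (0:ℝ)] with V hV
  have hpt : ∀ v : ℝ, ((‖∑ ρ ∈ Z, c ρ * Complex.exp ((ρ - 1 / 2 - Complex.I * t) * v)‖ ^ 2 : ℝ) : ℂ) =
      ∑ ρ ∈ Z, ∑ ρ' ∈ Z, c ρ * (starRingEnd ℂ) (c ρ') * ex (ρ.im - ρ'.im) v := by
    intro v
    push_cast
    rw [← Complex.mul_conj', map_sum, Finset.sum_mul_sum]
    refine Finset.sum_congr rfl fun ρ hρ => Finset.sum_congr rfl fun ρ' hρ' => ?_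
    rw [map_mul]
    have h3 : Complex.exp ((ρ - 1 / 2 - Complex.I * t) * v) * (starRingEnd ℂ) (Complex.exp ((ρ' - 1 / 2 - Complex.I * t) * v)) =
        ex (ρ.im - ρ'.im) v := by
      unfold ex
      rw [← Complex.exp_conj, ← Complex.exp_add]
      congr 1
      apply Complex.ext
      · simp [hZ ρ hρ, hZ ρ' hρ']
      · simp [hZ ρ hρ, hZ ρ' hρ']
        ring
    rw [← h3]
    ring
  simp only [Function.comp]
  have h4 : ((∫ v in Ioc 0 V, ‖∑ ρ ∈ Z, c ρ * Complex.exp ((ρ - 1 / 2 - Complex.I * t) * v)‖ ^ 2 : ℝ) : ℂ) =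
      ∑ ρ ∈ Z, ∑ ρ' ∈ Z, c ρ * (starRingEnd ℂ) (c ρ') * ∫ v in (0:ℝ)..V, ex (ρ.im - ρ'.im) v := by
    rw [← integral_complex_ofReal]
    simp_rw [hpt]
    rw [integral_finsetSum]
    · refine Finset.sum_congr rfl fun ρ _ => ?_
      rw [integral_finsetSum]
      · refine Finset.sum_congr rfl fun ρ' _ => ?_
        rw [integral_const_mul, intervalIntegral.integral_of_le hV.le]
      · intro ρ' _
        exact (((ex_cont _).intervalIntegrable 0 V).1).const_mul _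
    · intro ρ _
      refine integrable_finsetSum _ fun ρ' _ => ?_
      exact (((ex_cont _).intervalIntegrable 0 V).1).const_mul _
  have h5 : (((∫ v in Ioc 0 V, ‖∑ ρ ∈ Z, c ρ * Complex.exp ((ρ - 1 / 2 - Complex.I * t) * v)‖ ^ 2) / V : ℝ) : ℂ) =
      ∑ ρ ∈ Z, ∑ ρ' ∈ Z, c ρ * (starRingEnd ℂ) (c ρ') * ((∫ v in (0:ℝ)..V, ex (ρ.im - ρ'.im) v) / (V : ℂ)) := by
    rw [Complex.ofReal_div, h4, Finset.sum_div]
    refine Finset.sum_congr rfl fun ρ _ => ?_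
    rw [Finset.sum_div]
    refine Finset.sum_congr rfl fun ρ' _ => ?_
    ring
  rw [← h5, Complex.ofReal_re]

end Pool.Agent.Run7.h290.TM
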