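import Pool.Agent.Run7.h290.TM.C

set_option autoImplicit false

/-! # The limit of the mean square of the twisted sums -/

open MeasureTheory Filter Topology Set
open scoped ENNReal

namespace Pool.Agent.Run7.h290.TM

open Pool.Agent.TH223.AP Pool.Agent.H295R2 Pool.Agent.W120.WM

/-- `e^{-v/2} M(e^v)` -/
noncomputable def f0 : ℝ → ℂ := Ac fun n => (((ArithmeticFunction.moebius n : ℤ) : ℝ) : ℂ)

lemma f0_eq (v : ℝ) : f0 v = ((ft v : ℝ) : ℂ) := by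
  unfold f0 Ac ft
  push_cast
  ring

lemma f0_LB : LBc f0 := Ac_LB _

lemma f0_sq (V : ℝ) (hV : 0 ≤ V) : (∫ v in Ioc 0 V, ‖f0 v‖ ^ 2) / V = mn (fun v => ft v ^ 2) V := by
  unfold mn
  rw [intervalIntegral.integral_of_le hV]
  congr 1
  refine integral_congr_ae (Eventually.of_forall fun v => ?_)
  simp only
  rw [f0_eq, Complex.norm_real, Real.norm_eq_abs, sq_abs]

lemma As_sum (Z : Finset ℂ) (w : ℂ → ℂ) (s v : ℝ) : As s (fun v : ℝ => ∑ ρ ∈ Z, w ρ * Complex.exp ((ρ - 1 / 2) * v)) v =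
    ∑ ρ ∈ Z, w ρ * As s (fun v : ℝ => Complex.exp ((ρ - 1 / 2) * v)) v := by
  unfold As Hs
  have e1 : ∫ x in (0:ℝ)..v, ((Real.exp (x / 2) : ℝ) : ℂ) * (ph s x * ∑ ρ ∈ Z, w ρ * Complex.exp ((ρ - 1 / 2) * x)) =
      ∑ ρ ∈ Z, w ρ * ∫ x in (0:ℝ)..v, ((Real.exp (x / 2) : ℝ) : ℂ) * (ph s x * Complex.exp ((ρ - 1 / 2) * x)) := by
    simp_rw [Finset.mul_sum]
    rw [intervalIntegral.integral_finsetSum]
    · refine Finset.sum_congr rfl fun ρ _ => ?_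
      rw [← intervalIntegral.integral_const_mul]
      refine intervalIntegral.integral_congr fun x _ => ?_
      ring
    · intro ρ _
      have := ph_cont s
      exact (by fun_prop : Continuous fun x : ℝ => ((Real.exp (x / 2) : ℝ) : ℂ) * (ph s x * (w ρ * Complex.exp ((ρ - 1 / 2) * x)))).intervalIntegrable _ _
  rw [e1, Finset.mul_sum, Finset.mul_sum, Finset.mul_sum, ← Finset.sum_add_distrib]
  refine Finset.sum_congr rfl fun ρ _ => ?_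
  ring

lemma P_LB (Z : Finset ℂ) (hZ : ∀ ρ ∈ Z, ρ.re = 1 / 2) (w : ℂ → ℂ) (u : ℂ) (hu : u.re = 0) :
    LBc (fun v : ℝ => ∑ ρ ∈ Z, w ρ * Complex.exp ((ρ - 1 / 2 - u) * v)) := by
  refine ⟨?_, fun V => ⟨∑ ρ ∈ Z, ‖w ρ‖, fun v _ => ?_⟩⟩
  · exact (continuous_finsetSum _ fun ρ _ => by fun_prop : Continuous fun v : ℝ => ∑ ρ ∈ Z, w ρ * Complex.exp ((ρ - 1 / 2 - u) * v)).measurable
  · refine (norm_sum_le _ _).trans (Finset.sum_le_sum fun ρ hρ => ?_)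
    rw [norm_mul, Complex.norm_exp]
    have : ((ρ - 1 / 2 - u) * v).re = 0 := by simp [hZ ρ hρ, hu]
    rw [this, Real.exp_zero, mul_one]

/-- a lower bound for the distance -/
lemma dist_bd {ρ : ℂ} (hρ : ρ.re = 1 / 2) (t : ℝ) : ‖ρ‖ ≤ (1 + 2 * |t|) * ‖ρ - Complex.I * t‖ := by
  have h1 : (1:ℝ) / 2 ≤ ‖ρ - Complex.I * t‖ := by
    have h2 := Complex.abs_re_le_norm (ρ - Complex.I * t)
    have h3 : (ρ - Complex.I * t).re = 1 / 2 := by simp [hρ]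
    rw [h3] at h2
    rw [abs_of_pos (by norm_num : (0:ℝ) < 1 / 2)] at h2
    exact h2
  have h4 : ‖ρ‖ ≤ ‖ρ - Complex.I * t‖ + |t| := by
    have h5 := norm_add_le (ρ - Complex.I * t) (Complex.I * t)
    rw [sub_add_cancel, norm_mul, Complex.norm_I, one_mul, Complex.norm_real, Real.norm_eq_abs] at h5
    exact h5
  nlinarith [abs_nonneg t]

lemma sm {t : ℝ} (hZ : ZC) : Summable fun ρ : NT => 1 / ‖((ρ : ℂ) - Complex.I * t) * deriv riemannZeta ρ‖ ^ 2 := by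
  refine Summable.of_nonneg_of_le (fun ρ => by positivity) (fun ρ => ?_) (hZ.2.mul_left ((1 + 2 * |t|) ^ 2))
  have hre := (hZ.1 ρ ρ.2).1
  have hd : 0 < ‖deriv riemannZeta (ρ : ℂ)‖ := norm_pos_iff.2 (hZ.1 ρ ρ.2).2
  have h1 := dist_bd hre t
  have h0 : 0 < ‖(ρ : ℂ)‖ := by
    rw [norm_pos_iff]
    intro h
    rw [h] at hre
    norm_num at hre
  have h2 : 0 < ‖(ρ : ℂ) - Complex.I * t‖ := by
    by_contra h
    have : ‖(ρ : ℂ) - Complex.I * t‖ = 0 := le_antisymm (not_lt.1 h) (norm_nonneg _)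
    rw [this, mul_zero] at h1
    linarith
  rw [norm_mul, norm_mul, mul_one_div, div_le_div_iff₀ (by positivity) (by positivity), one_mul, mul_pow, mul_pow]
  have h3 : ‖(ρ : ℂ)‖ ^ 2 ≤ ((1 + 2 * |t|) * ‖(ρ : ℂ) - Complex.I * t‖) ^ 2 := by gcongr
  rw [mul_pow] at h3
  calc ‖(ρ : ℂ)‖ ^ 2 * ‖deriv riemannZeta (ρ : ℂ)‖ ^ 2 ≤ ((1 + 2 * |t|) ^ 2 * ‖(ρ : ℂ) - Complex.I * t‖ ^ 2) * ‖deriv riemannZeta (ρ : ℂ)‖ ^ 2 := by gcongr
    _ = _ := by ring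

theorem lim (hZ : ZC) (t : ℝ) : Tendsto (fun V : ℝ => (∫ v in Ioc 0 V, ‖As t f0 v‖ ^ 2) / V) atTop
    (𝓝 (∑' ρ : NT, 1 / ‖((ρ : ℂ) - Complex.I * t) * deriv riemannZeta ρ‖ ^ 2)) := by
  classical
  obtain ⟨Sb, hSb⟩ : ∃ Sb, Sb = ∑' ρ : NT, 1 / ‖((ρ : ℂ) - Complex.I * t) * deriv riemannZeta ρ‖ ^ 2 := ⟨_, rfl⟩
  have hSb0 : 0 ≤ Sb := by rw [hSb]; exact tsum_nonneg fun _ => by positivity
  rw [← hSb, Metric.tendsto_nhds]
  intro ε hε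
  obtain ⟨B, hB⟩ : ∃ B, B = Sb + 1 := ⟨_, rfl⟩
  have hB0 : 0 < B := by rw [hB]; linarith
  obtain ⟨η, hη⟩ : ∃ η, η = ε / (8 * B) := ⟨_, rfl⟩
  have hη0 : 0 < η := by rw [hη]; positivity
  have hηB : η * B = ε / 8 := by rw [hη]; field_simp
  obtain ⟨K, hK⟩ : ∃ K, K = (1 + η⁻¹) * (2 * (2 + 8 * t ^ 2)) := ⟨_, rfl⟩
  have hK0 : 0 < K := by rw [hK]; positivity
  -- the finite set
  have hA := hZ.2.hasSum
  have hBs := (sm (t := t) hZ).hasSum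
  rw [← hSb] at hBs
  obtain ⟨u, hu1, hu2⟩ := ((Metric.tendsto_nhds.1 hA (ε / (8 * K)) (by positivity)).and
    (Metric.tendsto_nhds.1 hBs (min (ε / 8) (1 / 2)) (by positivity))).exists
  rw [Real.dist_eq, abs_lt] at hu1 hu2
  obtain ⟨Z, hZdef⟩ : ∃ Z : Finset ℂ, Z = u.map (Function.Embedding.subtype _) := ⟨_, rfl⟩
  have hZN : ∀ ρ ∈ Z, ρ ∈ NT := by
    intro ρ hρ
    rw [hZdef, Finset.mem_map] at hρ
    obtain ⟨ρ', -, rfl⟩ := hρ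
    exact ρ'.2
  have hre : ∀ ρ ∈ Z, ρ.re = 1 / 2 := fun ρ hρ => (hZ.1 ρ (hZN ρ hρ)).1
  have hsuma : ∑ ρ ∈ Z, 1 / ‖ρ * deriv riemannZeta ρ‖ ^ 2 = ∑ ρ ∈ u, 1 / ‖(ρ : ℂ) * deriv riemannZeta ρ‖ ^ 2 := by
    rw [hZdef, Finset.sum_map]
    rfl
  have hsumb : ∑ ρ ∈ Z, 1 / ‖(ρ - Complex.I * t) * deriv riemannZeta ρ‖ ^ 2 = ∑ ρ ∈ u, 1 / ‖((ρ : ℂ) - Complex.I * t) * deriv riemannZeta ρ‖ ^ 2 := by
    rw [hZdef, Finset.sum_map]
    rfl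
  rw [← hsumb] at hu2
  have hdl := dist_lim' hZ Z hZN
  rw [hsuma] at hdl
  have htail : SS - ∑ ρ ∈ u, 1 / ‖(ρ : ℂ) * deriv riemannZeta ρ‖ ^ 2 < ε / (8 * K) := by
    unfold SS
    linarith [hu1.1]
  -- the functions
  obtain ⟨c, hc⟩ : ∃ c : ℂ → ℂ, c = fun ρ => ww ρ * (ρ / (ρ - Complex.I * t)) := ⟨_, rfl⟩
  obtain ⟨κ, hκ⟩ : ∃ κ : ℂ, κ = ∑ ρ ∈ Z, ww ρ * (Complex.I * t / (ρ - Complex.I * t)) := ⟨_, rfl⟩
  obtain ⟨q, hq⟩ : ∃ q : ℝ → ℂ, q = fun v : ℝ => ∑ ρ ∈ Z, c ρ * Complex.exp ((ρ - 1 / 2 - Complex.I * t) * v) := ⟨_, rfl⟩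
  obtain ⟨P, hP⟩ : ∃ P : ℝ → ℂ, P = fun v : ℝ => ∑ ρ ∈ Z, ww ρ * Complex.exp ((ρ - 1 / 2) * v) := ⟨_, rfl⟩
  obtain ⟨r, hr⟩ : ∃ r : ℝ → ℂ, r = fun v => f0 v - P v := ⟨_, rfl⟩
  have hPL : LBc P := by
    have := P_LB Z hre ww 0 (by simp)
    simp only [sub_zero] at this
    rw [hP]
    exact this
  have hqL : LBc q := by
    rw [hq]
    exact P_LB Z hre c (Complex.I * t) (by simp)
  have hrL : LBc r := by
    refine ⟨by rw [hr]; exact f0_LB.meas.sub hPL.meas, fun V => ?_⟩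
    obtain ⟨B1, hB1⟩ := f0_LB.bdd V
    obtain ⟨B2, hB2⟩ := hPL.bdd V
    refine ⟨B1 + B2, fun v hv => ?_⟩
    rw [hr]
    exact (norm_sub_le _ _).trans (add_le_add (hB1 v hv) (hB2 v hv))
  have hne : ∀ ρ ∈ Z, ρ - Complex.I * t ≠ 0 := by
    intro ρ hρ h
    have := congrArg Complex.re h
    simp [hre ρ hρ] at this
  have hdec : ∀ v, As t f0 v - q v = As t r v - κ * ((Real.exp (-(v / 2)) : ℝ) : ℂ) := by
    intro v
    have e1 : f0 = fun v => P v + r v := by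
      funext v
      rw [hr]
      ring
    rw [e1, As_add hPL hrL]
    have e2 : As t P v = q v - κ * ((Real.exp (-(v / 2)) : ℝ) : ℂ) := by
      rw [hP, As_sum, hq, hκ, Finset.sum_mul]
      simp only
      rw [← Finset.sum_sub_distrib]
      refine Finset.sum_congr rfl fun ρ hρ => ?_
      have h1 : (ρ - 1 / 2) + 1 / 2 - Complex.I * t ≠ 0 := by
        rw [sub_add_cancel]
        exact hne ρ hρ
      rw [As_exp t h1 v, sub_add_cancel, hc]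
      ring
    rw [e2]
    ring
  have hgL := As_l2 f0_LB t
  have hdL : L2 fun v => As t f0 v - q v := by
    refine ⟨hgL.1.sub hqL.meas, fun V => ?_⟩
    have h1 : ∀ v, ‖As t f0 v - q v‖ₑ ^ 2 ≤ ENNReal.ofReal (2 * ‖As t f0 v‖ ^ 2 + 2 * ‖q v‖ ^ 2) := by
      intro v
      rw [← ofReal_norm, ← ENNReal.ofReal_pow (norm_nonneg _)]
      refine ENNReal.ofReal_le_ofReal ?_
      have h2 := norm_sub_le (As t f0 v) (q v)
      nlinarith [norm_nonneg (As t f0 v - q v), sq_nonneg (‖As t f0 v‖ - ‖q v‖), norm_nonneg (As t f0 v), norm_nonneg (q v)]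
    refine lt_of_le_of_lt (lintegral_mono fun v => h1 v) ?_
    exact ((((hgL.int V).const_mul 2).add ((hqL.l2.int V).const_mul 2)).lintegral_lt_top)
  have hlimq := parseval Z hre c t
  have hcs : ∑ ρ ∈ Z, ‖c ρ‖ ^ 2 = ∑ ρ ∈ Z, 1 / ‖(ρ - Complex.I * t) * deriv riemannZeta ρ‖ ^ 2 := by
    refine Finset.sum_congr rfl fun ρ hρ => ?_
    rw [hc]
    simp only
    have h0 : ρ ≠ 0 := by
      intro h
      have := hre ρ hρ
      rw [h] at this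
      norm_num at this
    have e1 : ww ρ * (ρ / (ρ - Complex.I * t)) = 1 / ((ρ - Complex.I * t) * deriv riemannZeta ρ) := by
      unfold ww
      have := hne ρ hρ
      have hd := (hZ.1 ρ (hZN ρ hρ)).2
      field_simp
    rw [e1, norm_div, norm_one, div_pow, one_pow]
  rw [hcs] at hlimq
  have hev1 := Metric.tendsto_nhds.1 hlimq (min (ε / 8) (1 / 2)) (by positivity)
  have hev2 := hdl.eventually (gt_mem_nhds htail)
  have hκlim : Tendsto (fun V : ℝ => (1 + η⁻¹) * (2 * (‖κ‖ ^ 2 * V⁻¹))) atTop (𝓝 0) := by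
    have := ((tendsto_inv_atTop_zero (𝕜 := ℝ)).const_mul (‖κ‖ ^ 2)).const_mul 2 |>.const_mul (1 + η⁻¹)
    simpa using this
  have hev3 := hκlim.eventually (gt_mem_nhds (by positivity : (0:ℝ) < ε / 8))
  filter_upwards [hev1, hev2, hev3, eventually_gt_atTop (0:ℝ)] with V h1 h2 h3 hV
  rw [Real.dist_eq, abs_lt] at h1
  obtain ⟨qV, hqV⟩ : ∃ qV, qV = (∫ v in Ioc 0 V, ‖q v‖ ^ 2) / V := ⟨_, rfl⟩
  obtain ⟨aV, haV⟩ : ∃ aV, aV = (∫ v in Ioc 0 V, ‖As t f0 v‖ ^ 2) / V := ⟨_, rfl⟩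
  obtain ⟨dV, hdV⟩ : ∃ dV, dV = (∫ v in Ioc 0 V, ‖As t f0 v - q v‖ ^ 2) / V := ⟨_, rfl⟩
  obtain ⟨rV, hrV⟩ : ∃ rV, rV = (∫ v in Ioc 0 V, ‖r v‖ ^ 2) / V := ⟨_, rfl⟩
  have hcmp := compare hgL hqL.l2 hdL hη0 V
  have hcmp2 : |aV - qV| ≤ η * qV + (1 + η⁻¹) * dV := by
    rw [haV, hqV, hdV, ← sub_div, abs_div, abs_of_pos hV, div_le_iff₀ hV]
    refine hcmp.trans (le_of_eq ?_)
    field_simp
  have hd2 : dV ≤ 2 * (2 + 8 * t ^ 2) * rV + 2 * (‖κ‖ ^ 2 * V⁻¹) := by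
    have h4 : ∫ v in Ioc 0 V, ‖As t f0 v - q v‖ ^ 2 ≤ ∫ v in Ioc 0 V, (2 * ‖As t r v‖ ^ 2 + 2 * ‖κ‖ ^ 2 * Real.exp (-1 * v)) := by
      have hi : IntegrableOn (fun v : ℝ => Real.exp (-1 * v)) (Ioc 0 V) := (by fun_prop : Continuous fun v : ℝ => Real.exp (-1 * v)).integrableOn_Ioc
      refine integral_mono (hdL.int V) ((((As_l2 hrL t).int V).const_mul 2).add (hi.const_mul _)) fun v => ?_
      simp only
      rw [hdec v]
      have h5 := norm_sub_le (As t r v) (κ * ((Real.exp (-(v / 2)) : ℝ) : ℂ))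
      have h6 : ‖κ * ((Real.exp (-(v / 2)) : ℝ) : ℂ)‖ ^ 2 = ‖κ‖ ^ 2 * Real.exp (-1 * v) := by
        rw [norm_mul, Complex.norm_real, Real.norm_of_nonneg (Real.exp_pos _).le, mul_pow, ← Real.exp_nat_mul]
        congr 2
        push_cast
        ring
      have h7 : 2 * ‖κ‖ ^ 2 * Real.exp (-1 * v) = 2 * ‖κ * ((Real.exp (-(v / 2)) : ℝ) : ℂ)‖ ^ 2 := by rw [h6]; ring
      rw [h7]
      obtain ⟨x, hx⟩ : ∃ x, x = ‖As t r v‖ := ⟨_, rfl⟩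
      obtain ⟨y, hy⟩ : ∃ y, y = ‖κ * ((Real.exp (-(v / 2)) : ℝ) : ℂ)‖ := ⟨_, rfl⟩
      rw [← hx, ← hy] at h5 ⊢
      have h8 : ‖As t r v - κ * ((Real.exp (-(v / 2)) : ℝ) : ℂ)‖ ^ 2 ≤ (x + y) ^ 2 := by gcongr
      nlinarith [sq_nonneg (x - y)]
    have h5 : ∫ v in Ioc 0 V, (2 * ‖As t r v‖ ^ 2 + 2 * ‖κ‖ ^ 2 * Real.exp (-1 * v)) ≤
        2 * ((2 + 8 * t ^ 2) * ∫ v in Ioc 0 V, ‖r v‖ ^ 2) + 2 * ‖κ‖ ^ 2 * 1 := by
      have hi : IntegrableOn (fun v : ℝ => Real.exp (-1 * v)) (Ioc 0 V) := (by fun_prop : Continuous fun v : ℝ => Real.exp (-1 * v)).integrableOn_Ioc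
      rw [integral_add (((As_l2 hrL t).int V).const_mul 2) (hi.const_mul _), integral_const_mul, integral_const_mul]
      have h6 : ∫ v in Ioc 0 V, Real.exp (-1 * v) ≤ 1 := by
        have h7 : ∫ v in Ioc 0 V, Real.exp (-1 * v) ≤ ∫ v in Ioi (0:ℝ), Real.exp (-1 * v) :=
          setIntegral_mono_set (integrableOn_exp_mul_Ioi (by norm_num) 0) (Eventually.of_forall fun v => (Real.exp_pos _).le)
            (Ioc_subset_Ioi_self.eventuallyLE)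
        refine h7.trans (le_of_eq ?_)
        rw [integral_exp_mul_Ioi (by norm_num) 0]
        norm_num
      exact add_le_add (mul_le_mul_of_nonneg_left (As_real hrL t V) (by norm_num)) (mul_le_mul_of_nonneg_left h6 (by positivity))
    rw [hdV, div_le_iff₀ hV]
    refine (h4.trans h5).trans (le_of_eq ?_)
    rw [hrV]
    field_simp
  have hr2 : rV < ε / (8 * K) := by
    refine lt_of_le_of_lt (le_of_eq ?_) h2
    rw [hrV]
    unfold mn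
    rw [intervalIntegral.integral_of_le hV.le]
    congr 1
    refine integral_congr_ae (Eventually.of_forall fun v => ?_)
    simp only
    rw [hr, hP]
    simp only
    rw [f0_eq]
    rfl
  have hKr : K * rV ≤ ε / 8 := by
    calc K * rV ≤ K * (ε / (8 * K)) := mul_le_mul_of_nonneg_left hr2.le hK0.le
      _ = ε / 8 := by field_simp
  have hm1 := min_le_left (ε / 8) (1 / 2 : ℝ)
  have hm2 := min_le_right (ε / 8) (1 / 2 : ℝ)
  have hqe : (∫ v in Ioc 0 V, ‖∑ ρ ∈ Z, c ρ * Complex.exp ((ρ - 1 / 2 - Complex.I * t) * v)‖ ^ 2) / V = qV := by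
    rw [hqV, hq]
  rw [hqe] at h1
  have hqB : qV ≤ B := by
    rw [hB]
    linarith [h1.2, hu2.2]
  have h9 : η * qV ≤ ε / 8 := by
    rw [← hηB]
    exact mul_le_mul_of_nonneg_left hqB hη0.le
  have h10 : (1 + η⁻¹) * dV ≤ K * rV + (1 + η⁻¹) * (2 * (‖κ‖ ^ 2 * V⁻¹)) := by
    have h11 : 0 ≤ 1 + η⁻¹ := by positivity
    calc (1 + η⁻¹) * dV ≤ (1 + η⁻¹) * (2 * (2 + 8 * t ^ 2) * rV + 2 * (‖κ‖ ^ 2 * V⁻¹)) := mul_le_mul_of_nonneg_left hd2 h11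
      _ = _ := by rw [hK]; ring
  rw [← haV, Real.dist_eq]
  rw [abs_le] at hcmp2
  rw [abs_lt]
  constructor
  · linarith [h1.1, hu2.1, hcmp2.1]
  · linarith [h1.2, hu2.2, hcmp2.2]

/-- the condition on the zeros from one twist -/
theorem ZC_of {t C : ℝ} (h : ∃ᶠ V : ℝ in atTop, (∫ v in Ioc 0 V, ‖As t f0 v‖ ^ 2) / V ≤ C) : ZC := by
  refine ZC_of_freq (C := (2 + 8 * t ^ 2) * C) ?_
  refine (h.and_eventually (eventually_gt_atTop (0 : ℝ))).mono fun V hV => ?_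
  obtain ⟨h1, hV0⟩ := hV
  rw [← f0_sq V hV0.le]
  obtain ⟨c, hc⟩ : ∃ c : ℕ → ℂ, c = fun n => (((ArithmeticFunction.moebius n : ℤ) : ℝ) : ℂ) * ph t (Real.log n) := ⟨_, rfl⟩
  have h2 : ∫ v in Ioc 0 V, ‖f0 v‖ ^ 2 = ∫ v in Ioc 0 V, ‖As (-t) (Ac c) v‖ ^ 2 := by
    refine setIntegral_congr_fun measurableSet_Ioc fun v hv => ?_
    rw [← abel c (-t) hv.1.le, hc, twist_back]
    rfl
  have h3 : ∫ v in Ioc 0 V, ‖Ac c v‖ ^ 2 = ∫ v in Ioc 0 V, ‖As t f0 v‖ ^ 2 := by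
    refine setIntegral_congr_fun measurableSet_Ioc fun v hv => ?_
    rw [hc, abel _ t hv.1.le]
    rfl
  have h4 := As_real (Ac_LB c) (-t) V
  rw [← h2, h3, neg_sq] at h4
  rw [div_le_iff₀ hV0] at h1 ⊢
  calc ∫ v in Ioc 0 V, ‖f0 v‖ ^ 2 ≤ (2 + 8 * t ^ 2) * ∫ v in Ioc 0 V, ‖As t f0 v‖ ^ 2 := h4
    _ ≤ (2 + 8 * t ^ 2) * (C * V) := mul_le_mul_of_nonneg_left h1 (by positivity)
    _ = _ := by ring

end Pool.Agent.Run7.h290.TM
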