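import Pool.Agent.Run7.h290.TM.D

set_option autoImplicit false

/-! # The mean over the twists and the sum of `1/|ζ'(ρ)|²` -/

open MeasureTheory Filter Topology Set
open scoped ENNReal

namespace Pool.Agent.Run7.h290.TM

open Pool.Agent.TH223.AP Pool.Agent.H295R2 Pool.Agent.W120.WM

/-- the bound for the sum of `1/|ζ'(ρ)|²` -/
def JB (C : ℝ) : Prop := ∀ T : ℝ, 1 ≤ T → ∀ Z : Finset ℂ, (∀ ρ ∈ Z, ρ ∈ NT ∧ |ρ.im| ≤ T) → ∑ ρ ∈ Z, 1 / ‖deriv riemannZeta ρ‖ ^ 2 ≤ C * T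

/-- all zeros are critical and simple -/
def RS : Prop := ∀ ρ ∈ NT, ρ.re = 1 / 2 ∧ deriv riemannZeta ρ ≠ 0

lemma nsq {ρ : ℂ} (hρ : ρ.re = 1 / 2) (t : ℝ) : ‖ρ - Complex.I * t‖ ^ 2 = 1 / 4 + (ρ.im - t) ^ 2 := by
  rw [← Complex.normSq_eq_norm_sq, Complex.normSq_apply]
  simp [hρ]
  ring

lemma low {ρ : ℂ} (hρ : ρ.re = 1 / 2) {T : ℝ} (hT : 1 ≤ T) (h : |ρ.im| ≤ T) :
    ENNReal.ofReal (4 / 5) ≤ ∫⁻ t in Icc (-T) T, ENNReal.ofReal (1 / ‖ρ - Complex.I * t‖ ^ 2) := by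
  rw [abs_le] at h
  obtain ⟨p, hp1, hp2, hp3, hp4⟩ : ∃ p : ℝ, -T ≤ p ∧ p + 1 ≤ T ∧ p ≤ ρ.im ∧ ρ.im ≤ p + 1 := by
    rcases le_or_gt ρ.im 0 with h0 | h0
    · exact ⟨ρ.im, h.1, by linarith, le_rfl, by linarith⟩
    · exact ⟨ρ.im - 1, by linarith, by linarith, by linarith, by linarith⟩
  calc ENNReal.ofReal (4 / 5) = ∫⁻ _ in Icc p (p + 1), ENNReal.ofReal (4 / 5) := by
        rw [lintegral_const, Measure.restrict_apply_univ, Real.volume_Icc]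
        simp
    _ ≤ ∫⁻ t in Icc p (p + 1), ENNReal.ofReal (1 / ‖ρ - Complex.I * t‖ ^ 2) := by
        refine setLIntegral_mono' measurableSet_Icc fun t ht => ENNReal.ofReal_le_ofReal ?_
        rw [nsq hρ, div_le_div_iff₀ (by norm_num) (by positivity)]
        have : (ρ.im - t) ^ 2 ≤ 1 := by
          rw [sq_le_one_iff_abs_le_one, abs_le]
          constructor <;> linarith [ht.1, ht.2]
        linarith
    _ ≤ _ := lintegral_mono_set (Icc_subset_Icc hp1 hp2)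

/-- the weight -/
noncomputable def wt (T : ℝ) (ρ : ℂ) : ℝ := if |ρ.im| ≤ 2 * T then 1 else (2 * T / |ρ.im|) ^ 2

lemma wt_nn (T : ℝ) (ρ : ℂ) : 0 ≤ wt T ρ := by
  unfold wt
  split_ifs <;> positivity

lemma high {ρ : ℂ} (hρ : ρ.re = 1 / 2) {T : ℝ} (hT : 1 ≤ T) :
    ∫⁻ t in Icc (-T) T, ENNReal.ofReal (1 / ‖ρ - Complex.I * t‖ ^ 2) ≤ ENNReal.ofReal (16 * wt T ρ) := by
  unfold wt
  split_ifs with h
  · have h1 : ∀ t : ℝ, 1 / ‖ρ - Complex.I * t‖ ^ 2 ≤ 4 * (1 + (ρ.im - t) ^ 2)⁻¹ := by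
      intro t
      rw [nsq hρ, ← div_eq_mul_inv, div_le_div_iff₀ (by positivity) (by positivity)]
      nlinarith [sq_nonneg (ρ.im - t)]
    have h2 : ∫⁻ t in Icc (-T) T, ENNReal.ofReal (1 / ‖ρ - Complex.I * t‖ ^ 2) ≤ ∫⁻ t : ℝ, ENNReal.ofReal (4 * (1 + (ρ.im - t) ^ 2)⁻¹) :=
      (lintegral_mono fun t => ENNReal.ofReal_le_ofReal (h1 t)).trans (setLIntegral_le_lintegral _ _)
    refine h2.trans ?_
    have hi : Integrable fun t : ℝ => 4 * (1 + (ρ.im - t) ^ 2)⁻¹ :=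
      (integrable_inv_one_add_sq.comp_sub_left ρ.im).const_mul 4
    rw [← ofReal_integral_eq_lintegral_ofReal hi (Eventually.of_forall fun t => by positivity)]
    refine ENNReal.ofReal_le_ofReal ?_
    rw [integral_const_mul, integral_sub_left_eq_self (fun t : ℝ => (1 + t ^ 2)⁻¹) volume ρ.im, integral_univ_inv_one_add_sq]
    linarith [Real.pi_lt_four]
  · rw [not_le] at h
    have hg : 0 < |ρ.im| := by linarith
    have h1 : ∀ t ∈ Icc (-T) T, ENNReal.ofReal (1 / ‖ρ - Complex.I * t‖ ^ 2) ≤ ENNReal.ofReal (4 / |ρ.im| ^ 2) := by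
      intro t ht
      refine ENNReal.ofReal_le_ofReal ?_
      rw [nsq hρ, div_le_div_iff₀ (by positivity) (by positivity)]
      have h3 : |ρ.im| / 2 ≤ |ρ.im - t| := by
        have h4 := abs_sub_abs_le_abs_sub ρ.im t
        have h5 : |t| ≤ T := abs_le.2 ht
        linarith
      have h6 : (|ρ.im| / 2) ^ 2 ≤ (ρ.im - t) ^ 2 := by
        rw [← sq_abs (ρ.im - t)]
        gcongr
      nlinarith
    refine (setLIntegral_mono' measurableSet_Icc h1).trans ?_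
    rw [lintegral_const, Measure.restrict_apply_univ, Real.volume_Icc, ← ENNReal.ofReal_mul (by positivity)]
    refine ENNReal.ofReal_le_ofReal ?_
    have e1 : 16 * (2 * T / |ρ.im|) ^ 2 = 64 * T ^ 2 / |ρ.im| ^ 2 := by
      rw [div_pow]
      ring
    have e2 : 4 / |ρ.im| ^ 2 * (T - -T) = 8 * T / |ρ.im| ^ 2 := by ring
    rw [e1, e2]
    refine div_le_div_of_nonneg_right ?_ (by positivity)
    nlinarith

/-- dyadic decomposition -/
lemma dyadic {C : ℝ} (hJ : JB C) {T : ℝ} (hT : 1 ≤ T) (Z : Finset ℂ) (hZ : ∀ ρ ∈ Z, ρ ∈ NT) :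
    ∑ ρ ∈ Z, wt T ρ * (1 / ‖deriv riemannZeta ρ‖ ^ 2) ≤ 16 * C * T := by
  classical
  have hC : 0 ≤ C := by
    have := hJ 1 le_rfl ∅ (by simp)
    simpa using this
  -- a bound for the ordinates
  obtain ⟨N, hN⟩ : ∃ N : ℕ, ∀ ρ ∈ Z, |ρ.im| ≤ 2 ^ (N + 1) * T := by
    have h1 : ∃ X : ℝ, ∀ ρ ∈ Z, |ρ.im| ≤ X := by
      refine ⟨∑ ρ ∈ Z, |ρ.im|, fun ρ hρ => ?_⟩
      exact Finset.single_le_sum (f := fun ρ : ℂ => |ρ.im|) (fun _ _ => abs_nonneg _) hρ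
    obtain ⟨X, hX⟩ := h1
    obtain ⟨N, hN⟩ := pow_unbounded_of_one_lt X (by norm_num : (1:ℝ) < 2)
    refine ⟨N, fun ρ hρ => (hX ρ hρ).trans ?_⟩
    have h2 : (0:ℝ) < 2 ^ N := by positivity
    calc X ≤ 2 ^ N := hN.le
      _ ≤ 2 ^ (N + 1) * T := by
        rw [pow_succ]
        nlinarith
  have hpt : ∀ ρ ∈ Z, wt T ρ ≤ ∑ j ∈ Finset.range (N + 1), 4 * (1 / 4 : ℝ) ^ j * (if |ρ.im| ≤ 2 ^ (j + 1) * T then 1 else 0) := by
    intro ρ hρ
    have hex : ∃ j : ℕ, |ρ.im| ≤ 2 ^ (j + 1) * T := ⟨N, hN ρ hρ⟩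
    obtain ⟨j, hj⟩ : ∃ j, j = Nat.find hex := ⟨_, rfl⟩
    have hj1 : |ρ.im| ≤ 2 ^ (j + 1) * T := by rw [hj]; exact Nat.find_spec hex
    have hjN : j ≤ N := by rw [hj]; exact Nat.find_min' hex (hN ρ hρ)
    have h1 : wt T ρ ≤ 4 * (1 / 4 : ℝ) ^ j := by
      unfold wt
      rcases Nat.eq_zero_or_pos j with h0 | h0
      · rw [h0] at hj1 ⊢
        rw [if_pos (by simpa using hj1)]
        norm_num
      · have h2 : ¬ |ρ.im| ≤ 2 ^ (j - 1 + 1) * T := by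
          rw [hj]
          exact Nat.find_min hex (by rw [← hj]; omega)
        rw [show j - 1 + 1 = j by omega, not_le] at h2
        have h3 : ¬ |ρ.im| ≤ 2 * T := by
          rw [not_le]
          refine lt_of_le_of_lt ?_ h2
          have : (2:ℝ) ^ 1 ≤ 2 ^ j := pow_le_pow_right₀ (by norm_num) h0
          nlinarith
        rw [if_neg h3]
        have h4 : 2 * T / |ρ.im| ≤ 2 * T / (2 ^ j * T) := div_le_div_of_nonneg_left (by linarith) (by positivity) h2.le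
        have h5 : 2 * T / (2 ^ j * T) = 2 / 2 ^ j := by
          have : T ≠ 0 := by linarith
          field_simp
        have h6 : (2 / (2:ℝ) ^ j) ^ 2 = 4 * (1 / 4 : ℝ) ^ j := by
          rw [div_pow, ← pow_mul, mul_comm j 2, pow_mul, one_div, inv_pow]
          norm_num
          ring
        calc (2 * T / |ρ.im|) ^ 2 ≤ (2 / (2:ℝ) ^ j) ^ 2 := by
              rw [← h5]
              gcongr
          _ = _ := h6
    refine h1.trans ?_
    have h7 := Finset.single_le_sum (f := fun j : ℕ => 4 * (1 / 4 : ℝ) ^ j * (if |ρ.im| ≤ 2 ^ (j + 1) * T then (1:ℝ) else 0))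
      (fun i _ => by positivity) (Finset.mem_range.2 (by omega : j < N + 1))
    rw [if_pos hj1, mul_one] at h7
    exact h7
  calc ∑ ρ ∈ Z, wt T ρ * (1 / ‖deriv riemannZeta ρ‖ ^ 2) ≤
      ∑ ρ ∈ Z, (∑ j ∈ Finset.range (N + 1), 4 * (1 / 4 : ℝ) ^ j * (if |ρ.im| ≤ 2 ^ (j + 1) * T then 1 else 0)) * (1 / ‖deriv riemannZeta ρ‖ ^ 2) :=
        Finset.sum_le_sum fun ρ hρ => mul_le_mul_of_nonneg_right (hpt ρ hρ) (by positivity)
    _ = ∑ j ∈ Finset.range (N + 1), 4 * (1 / 4 : ℝ) ^ j * ∑ ρ ∈ Z, (if |ρ.im| ≤ 2 ^ (j + 1) * T then 1 / ‖deriv riemannZeta ρ‖ ^ 2 else 0) := by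
        simp_rw [Finset.sum_mul, Finset.mul_sum]
        rw [Finset.sum_comm]
        refine Finset.sum_congr rfl fun j _ => Finset.sum_congr rfl fun ρ _ => ?_
        split_ifs <;> ring
    _ ≤ ∑ j ∈ Finset.range (N + 1), 4 * (1 / 4 : ℝ) ^ j * (C * (2 ^ (j + 1) * T)) := by
        refine Finset.sum_le_sum fun j _ => mul_le_mul_of_nonneg_left ?_ (by positivity)
        rw [← Finset.sum_filter]
        refine hJ (2 ^ (j + 1) * T) ?_ _ ?_
        · have : (1:ℝ) ≤ 2 ^ (j + 1) := one_le_pow₀ (by norm_num)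
          nlinarith
        · intro ρ hρ
          rw [Finset.mem_filter] at hρ
          exact ⟨hZ ρ hρ.1, hρ.2⟩
    _ = 8 * C * T * ∑ j ∈ Finset.range (N + 1), (1 / 2 : ℝ) ^ j := by
        rw [Finset.mul_sum]
        refine Finset.sum_congr rfl fun j _ => ?_
        have : (1 / 4 : ℝ) ^ j * 2 ^ j = (1 / 2) ^ j := by
          rw [← mul_pow]
          norm_num
        calc 4 * (1 / 4 : ℝ) ^ j * (C * (2 ^ (j + 1) * T)) = 8 * C * T * ((1 / 4 : ℝ) ^ j * 2 ^ j) := by ring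
          _ = _ := by rw [this]
    _ ≤ 8 * C * T * 2 := by
        refine mul_le_mul_of_nonneg_left ?_ (by positivity)
        have h1 := summable_geometric_two.sum_le_tsum (Finset.range (N + 1)) (fun i _ => by positivity)
        rw [tsum_geometric_two] at h1
        exact h1
    _ = 16 * C * T := by ring

/-- the condition on the zeros -/
lemma ZC_of_JB {C : ℝ} (hR : RS) (hJ : JB C) : ZC := by
  refine ⟨hR, ?_⟩
  refine summable_of_sum_le (c := 4 * (16 * C * 1)) (fun _ => by positivity) fun u => ?_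
  obtain ⟨Z, hZdef⟩ : ∃ Z : Finset ℂ, Z = u.map (Function.Embedding.subtype _) := ⟨_, rfl⟩
  have hZN : ∀ ρ ∈ Z, ρ ∈ NT := by
    intro ρ hρ
    rw [hZdef, Finset.mem_map] at hρ
    obtain ⟨ρ', -, rfl⟩ := hρ
    exact ρ'.2
  have h1 := dyadic hJ le_rfl Z hZN
  have h2 : ∑ ρ ∈ u, 1 / ‖(ρ : ℂ) * deriv riemannZeta ρ‖ ^ 2 = ∑ ρ ∈ Z, 1 / ‖ρ * deriv riemannZeta ρ‖ ^ 2 := by
    rw [hZdef, Finset.sum_map]
    rfl
  rw [h2]
  refine le_trans ?_ (mul_le_mul_of_nonneg_left h1 (by norm_num : (0:ℝ) ≤ 4))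
  rw [Finset.mul_sum]
  refine Finset.sum_le_sum fun ρ hρ => ?_
  have hre := (hR ρ (hZN ρ hρ)).1
  have hd : 0 < ‖deriv riemannZeta ρ‖ := norm_pos_iff.2 (hR ρ (hZN ρ hρ)).2
  have hn := nsq hre 0
  simp only [Complex.ofReal_zero, mul_zero, sub_zero] at hn
  have h3 : 1 / ‖ρ‖ ^ 2 ≤ 4 * wt 1 ρ := by
    rw [hn]
    unfold wt
    split_ifs with h
    · rw [mul_one, div_le_iff₀ (by positivity)]
      nlinarith [sq_nonneg ρ.im]
    · rw [not_le] at h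
      have hg : 0 < |ρ.im| := by linarith
      rw [div_pow, ← sq_abs ρ.im]
      rw [mul_one, ← mul_div_assoc, div_le_div_iff₀ (by positivity) (by positivity)]
      nlinarith [sq_nonneg |ρ.im|]
  rw [norm_mul, mul_pow]
  calc 1 / (‖ρ‖ ^ 2 * ‖deriv riemannZeta ρ‖ ^ 2) = 1 / ‖ρ‖ ^ 2 * (1 / ‖deriv riemannZeta ρ‖ ^ 2) := by
        rw [one_div_mul_one_div]
    _ ≤ 4 * wt 1 ρ * (1 / ‖deriv riemannZeta ρ‖ ^ 2) := mul_le_mul_of_nonneg_right h3 (by positivity)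
    _ = _ := by ring

end Pool.Agent.Run7.h290.TM
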